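import Pool.Agent.H2.Roe1

namespace Pool.Agent.Results.MP_ab5103_an.NoCut

open Pool.Agent.H2.Roe Pool.Agent.H2.BT Filter Topology

lemma qq_mem (x y : ℕ) : qq {x} * U (Equiv.swap x y) ∈ Roe bX :=
  subset_closure ⟨dist (α := N) x y + dist (α := N) x (Equiv.swap x y y) + dist (α := N) x x,
    fun s t h => by
      have h' : inner ℂ (dl s) (qq {x} (U (Equiv.swap x y) (dl t))) ≠ 0 :=
        bX_apply s ▸ bX_apply t ▸ h
      rw [inner_qq, U_dl, inner_dl] at h'
      have h1 : @Eq ℕ s x := by by_contra c; simp [c] at h'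
      have h2 : @Eq ℕ t y := by
        have : x = Equiv.swap x y t := by by_contra c; simp [c, h1] at h'
        rw [← Equiv.swap_apply_self x y t, ← this, Equiv.swap_apply_left]
      subst h1 h2
      exact (le_add_of_nonneg_right dist_nonneg).trans (le_add_of_nonneg_right dist_nonneg)⟩

lemma Ph_w (x y n : ℕ) : Ph (qq {x} * U (Equiv.swap x y)) (w y n) = w x n := by
  rw [w, Ph_single, mul_apply_eq_comp, U_dl, Equiv.swap_apply_right, qq_dl, if_pos (by simp), w]

lemma qq_star (x : ℕ) : star (qq {x}) = qq {x} := ext_ent fun s t => by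
  rw [← inner_star, inner_qq, qq_dl, inner_dl]
  by_cases h : s = x <;> by_cases h' : t = x <;> simp [h, h', inner_dl, eq_comm]

lemma key {p : FF →L[ℂ] FF} (hp : p ∈ Roe cY) (ps : IsStarProjection p)
    (pc : ∀ a ∈ Roe bX, Commute p (Ph a)) (hk : IsCompactOperator (p * Ph (qq {0}) * p))
    (i : ℕ) : p (w 0 i) = 0 := by
  have q0 : qq {0} * U (Equiv.swap 0 0) = qq {0} := by
    rw [Equiv.swap_self]; exact (congrArg _ (map_one U)).trans (mul_one _)
  have t : Tendsto (fun n => p (w 0 n)) atTop (𝓝 0) := by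
    have := compact_null hk (e := w 0) (orthonormal_iff_ite.2 fun n m =>
      (ww 1 0 n 0 m).trans (by simp [inner_dl]))
    refine this.congr fun n => ?_
    rw [mul_assoc, ← (pc _ (q0 ▸ qq_mem 0 0)).eq, ← mul_assoc, ps.isIdempotentElem.eq,
      mul_apply_eq_comp, ← q0, Ph_w]
  have tr : ∀ x n m, inner ℂ (w x n) (p (w x m)) = inner ℂ (w 0 n) (p (w 0 m)) := fun x n m => by
    rw [← Ph_w x 0 m, ← mul_apply_eq_comp, (pc _ (qq_mem x 0)).eq, mul_apply_eq_comp,
      ← star_star (Ph _), ← inner_star, ← Ph_star, w, Ph_single, star_mul, qq_star, U_star,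
      mul_apply_eq_comp, qq_dl, if_pos (by simp), U_dl, Equiv.swap_inv, Equiv.swap_apply_left]
    rfl
  have sa : ∀ f g, inner ℂ f (p g) = inner ℂ (p f) g := fun f g => by
    rw [inner_star, ps.isSelfAdjoint.star_eq]
  have nn : inner ℂ (w 0 i) (p (w 0 i)) = inner ℂ (p (w 0 i)) (p (w 0 i)) := by
    rw [← sa, ← mul_apply_eq_comp, ps.isIdempotentElem.eq]
  rw [← inner_self_eq_zero (𝕜 := ℂ), ← nn, ← norm_le_zero_iff]
  refine le_of_forall_pos_le_add fun ε hε => ?_
  obtain ⟨T, ⟨r, hr⟩, hT⟩ := Metric.mem_closure_iff.1 hp (12 / 25 * ε) (by positivity)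
  have tj : Tendsto (fun k => i + k + 1) atTop atTop :=
    tendsto_atTop_mono (fun k => by simp only [id]; omega) tendsto_id
  have t1 := t.comp tj
  have n1 : ∀ n, ‖w 0 n‖ = 1 := fun n => by simp [w]
  have t2 : Tendsto (fun k => inner ℂ (w 0 (i + k + 1)) (p (w 0 (i + k + 1)))) atTop (𝓝 0) :=
    squeeze_zero_norm (fun k => (norm_inner_le_norm _ _).trans_eq (by rw [n1, one_mul]; rfl))
      (tendsto_zero_iff_norm_tendsto_zero.1 t1)
  have t3 := (tendsto_const_nhds (x := w 0 i)).inner (𝕜 := ℂ) t1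
  have t4 := t1.inner (𝕜 := ℂ) (tendsto_const_nhds (x := w 0 i))
  have lim := ((((tendsto_const_nhds (x := inner ℂ (w 0 i) (p (w 0 i)))).sub
    (t3.const_mul (3 / 4))).add (t4.const_mul (4 / 3))).sub t2).norm
  simp only [inner_zero_left, inner_zero_right, mul_zero, sub_zero, add_zero] at lim
  rw [zero_add]
  refine le_of_tendsto lim ((eventually_gt_atTop ⌈r⌉₊).mono fun k hk => ?_)
  set x := Nat.pair i k
  have xi : ii x = i := by simp [ii, x]
  have xj : jj x = i + k + 1 := by simp [jj, x]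
  have z : inner ℂ (v x i) (T (v x (i + k + 1))) = 0 := by
    by_contra c
    have := hr (x, i) (x, i + k + 1) (cY_apply x i ▸ cY_apply x (i + k + 1) ▸ c)
    rcases far ((le_max_right _ _).trans this) with h | h
    · omega
    · have := Nat.le_ceil r
      have h2 : ((i + k + 1 : ℕ) : ℝ) ≤ ⌈r⌉₊ := h.2.trans this
      have := Nat.cast_le.1 h2
      omega
  have nv : ∀ n, ‖v x n‖ = 1 := fun n => cY_apply x n ▸ cY.orthonormal.1 (x, n)
  have b : ‖inner ℂ (v x i) (p (v x (i + k + 1)))‖ ≤ 12 / 25 * ε := by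
    rw [← sub_zero (inner ℂ _ _), ← z, ← inner_sub_right, ← sub_apply]
    refine (norm_inner_le_norm _ _).trans ?_
    rw [nv, one_mul]
    refine ((p - T).le_opNorm _).trans ?_
    rw [nv, mul_one, ← dist_eq_norm]
    exact hT.le
  have e : inner ℂ (v x i) (p (v x (i + k + 1))) = 12 / 25 * (inner ℂ (w 0 i) (p (w 0 i)) -
      3 / 4 * inner ℂ (w 0 i) (p (w 0 (i + k + 1))) +
      4 / 3 * inner ℂ (p (w 0 (i + k + 1))) (w 0 i) -
      inner ℂ (w 0 (i + k + 1)) (p (w 0 (i + k + 1)))) := by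
    have c1 := cc_i x
    have c2 := cc_j x
    rw [xi] at c1
    rw [xj] at c2
    rw [inner_v, ← sa]
    simp only [v, map_sub, map_smul, inner_sub_right, inner_smul_right, tr, xi, xj, c1, c2]
    ring
  rw [e, norm_mul] at b
  have : ‖(12 / 25 : ℂ)‖ = 12 / 25 := by simp
  rw [this] at b
  exact le_of_mul_le_mul_left b (by norm_num)

theorem result : ∃ (X Y E F : Type) (_ : MetricSpace X) (_ : MetricSpace Y)
    (_ : NormedAddCommGroup E) (_ : InnerProductSpace ℂ E) (_ : CompleteSpace E)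
    (_ : NormedAddCommGroup F) (_ : InnerProductSpace ℂ F) (_ : CompleteSpace F)
    (b : HilbertBasis X ℂ E) (c : HilbertBasis Y ℂ F) (Φ : (E →L[ℂ] E) → (F →L[ℂ] F)),
    ULF X ∧ ULF Y ∧ PropA Y ∧ IsEmb (Roe b) (Roe c) Φ ∧
      BadCuts (Roe b) (Roe c) Φ RankOne Cpt := by
  have q0 : qq {0} * U (Equiv.swap 0 0) = qq {0} := by
    rw [Equiv.swap_self]; exact (congrArg _ (map_one U)).trans (mul_one _)
  have m0 := q0 ▸ qq_mem 0 0
  have d0 : dl 0 ≠ 0 := fun h => by simpa [h] using inner_dl 0 0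
  refine ⟨N, N × N, l2, FF, inferInstance, inferInstance, inferInstance, inferInstance,
    inferInstance, inferInstance, inferInstance, inferInstance, bX, cY, Ph, ulf_N, ulf_NN,
    propA_NN, emb, fun p hp ps pc inj => ⟨qq {0}, m0, ⟨ext_dl fun n => ?_, qq_star 0⟩, ?_,
      fun hk => ?_⟩⟩
  · rw [mul_apply_eq_comp, qq_dl]
    split_ifs with h <;> simp [qq_dl, h]
  · suffices (qq {0}).range = ℂ ∙ dl 0 by rw [RankOne, this, finrank_span_singleton d0]
    refine le_antisymm ?_ (Submodule.span_le.2 ?_)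
    · rintro _ ⟨f, rfl⟩
      exact Submodule.mem_span_singleton.2 ⟨inner ℂ (dl 0) f, by simp [qq]⟩
    · rintro _ rfl
      exact ⟨dl 0, by simp [qq_dl]⟩
  · have z : p * Ph (qq {0}) = 0 := lp.ext_continuousLinearMap (by simp) fun n =>
      ContinuousLinearMap.ext fun f => by
      change p (Ph (qq {0}) (lp.single 2 n f)) = 0
      have : qq {0} f = inner ℂ (dl 0) f • dl 0 := by simp [qq]
      rw [Ph_single, this, lp.single_smul, map_smul, show lp.single 2 n (dl 0) = w 0 n from rfl,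
        key hp ps pc hk, smul_zero]
    have := inj m0 (subset_closure ⟨0, fun x y h => absurd (inner_zero_right _) h⟩ :
      (0 : l2 →L[ℂ] l2) ∈ Roe bX) (by
        change p * Ph (qq {0}) * p = p * PhL 0 * p
        rw [z, map_zero, mul_zero])
    exact d0 (by simpa [qq_dl] using congr($this (dl 0)))

end Pool.Agent.Results.MP_ab5103_an.NoCut
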